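import Mathlib

/-!
# Very thin sets of integers and ALL multiples of almost every real number
-/

set_option autoImplicit false

namespace Pool.Agent.Q331.AllMult

open Finset MeasureTheory Filter

open Classical in
theorem all_mult (T : Set ℕ) (hT : ∀ ε : ℝ, 0 < ε → ∃ C : ℝ, ∀ X : ℕ, 1 ≤ X →
      (((Ioc 0 X).filter (fun t => t ∈ T)).card : ℝ) ≤ C * (X : ℝ) ^ ε) (K : ℕ) (c : ℝ) (hc : 0 < c) (hc1 : c < 1) :
    ∃ Y₀ : ℝ, 1 ≤ Y₀ ∧ ∀ Y : ℝ, Y₀ ≤ Y → ∃ E : Set ℝ, MeasurableSet E ∧ volume E ≤ ENNReal.ofReal (Y ^ (1 - c / 2)) ∧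
      ∀ y : ℝ, Y ≤ y → y ≤ 2 * Y → y ∉ E → ∀ k : ℕ, 1 ≤ k → (k : ℝ) ≤ Y ^ K →
        ∀ N : ℕ, |(N : ℝ) - k * y| ≤ Y ^ (1 - c) → 0 < N ∧ N ∉ T := by
  obtain ⟨ε, hε⟩ : ∃ ε : ℝ, ε = c / (8 * (K + 1)) := ⟨_, rfl⟩
  have hε0 : 0 < ε := by rw [hε]; positivity
  obtain ⟨C, hC⟩ := hT ε hε0
  have hCa : ∀ X : ℕ, 1 ≤ X → (((Ioc 0 X).filter (fun t => t ∈ T)).card : ℝ) ≤ |C| * (X : ℝ) ^ ε := fun X hX =>
    (hC X hX).trans (mul_le_mul_of_nonneg_right (le_abs_self C) (by positivity))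
  have hev : ∀ᶠ Y : ℝ in atTop, 2 ≤ Y ∧
      |C| * (3 : ℝ) ^ ε * 2 * (1 + K * Real.log Y) ≤ Y ^ (3 * c / 8) := by
    have h1 := (isLittleO_log_rpow_atTop (show (0 : ℝ) < 3 * c / 8 by positivity)).bound
      (show (0 : ℝ) < 1 / (2 * (|C| * (3 : ℝ) ^ ε * 2 * K + 1)) by positivity)
    have h2 := (tendsto_rpow_atTop (show (0 : ℝ) < 3 * c / 8 by positivity)).eventually_ge_atTop
      (2 * (|C| * (3 : ℝ) ^ ε * 2))
    filter_upwards [h1, h2, eventually_ge_atTop 2] with Y h1 h2 h3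
    refine ⟨h3, ?_⟩
    have hY0 : 0 < Y := by linarith
    rw [Real.norm_of_nonneg (Real.log_nonneg (by linarith)), Real.norm_of_nonneg (by positivity)] at h1
    have hP : 0 < Y ^ (3 * c / 8) := by positivity
    have hA : 0 ≤ |C| * (3 : ℝ) ^ ε * 2 := by positivity
    obtain ⟨A, hAd⟩ : ∃ A : ℝ, A = |C| * (3 : ℝ) ^ ε * 2 := ⟨_, rfl⟩
    rw [← hAd] at h1 h2 hA ⊢
    have hK0 : (0 : ℝ) ≤ K := Nat.cast_nonneg K
    have h4 : A * K * Real.log Y ≤ Y ^ (3 * c / 8) / 2 := by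
      calc A * K * Real.log Y ≤ A * K * (1 / (2 * (A * K + 1)) * Y ^ (3 * c / 8)) :=
            mul_le_mul_of_nonneg_left h1 (by positivity)
        _ = (A * K / (A * K + 1)) * (Y ^ (3 * c / 8) / 2) := by
            field_simp
        _ ≤ 1 * (Y ^ (3 * c / 8) / 2) := by
            apply mul_le_mul_of_nonneg_right _ (by positivity)
            rw [div_le_one (by positivity)]
            linarith
        _ = _ := one_mul _
    calc A * (1 + K * Real.log Y) = A + A * K * Real.log Y := by ring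
      _ ≤ Y ^ (3 * c / 8) / 2 + Y ^ (3 * c / 8) / 2 := by linarith
      _ = _ := by ring
  obtain ⟨Y₁, hY₁⟩ := hev.exists_forall_of_atTop
  refine ⟨max Y₁ 2, le_trans (by norm_num) (le_max_right _ _), fun Y hY => ?_⟩
  obtain ⟨hY2, hYb⟩ := hY₁ Y (le_of_max_le_left hY)
  have hY0 : 0 < Y := by linarith
  have hY1 : 1 ≤ Y := by linarith
  obtain ⟨w, hw⟩ : ∃ w : ℝ, w = Y ^ (1 - c) := ⟨_, rfl⟩
  have hw0 : 0 < w := by rw [hw]; positivity
  have hwY : w < Y := by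
    rw [hw]
    calc Y ^ (1 - c) < Y ^ (1 : ℝ) := Real.rpow_lt_rpow_of_exponent_lt (by linarith) (by linarith)
      _ = Y := Real.rpow_one Y
  obtain ⟨X, hX⟩ : ∃ X : ℕ, X = ⌊3 * Y ^ (K + 1)⌋₊ := ⟨_, rfl⟩
  have hYK : 1 ≤ Y ^ (K + 1) := one_le_pow₀ hY1
  have hX1 : 1 ≤ X := by
    rw [hX]
    apply Nat.le_floor
    push_cast
    linarith
  have hXle : (X : ℝ) ≤ 3 * Y ^ (K + 1) := by rw [hX]; exact Nat.floor_le (by positivity)
  obtain ⟨S, hS⟩ : ∃ S : Finset ℕ, S = (Ioc 0 X).filter (fun t => t ∈ T) := ⟨_, rfl⟩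
  have hScard : (S.card : ℝ) ≤ |C| * ((3 : ℝ) ^ ε * Y ^ (c / 8)) := by
    rw [hS]
    refine (hCa X hX1).trans (mul_le_mul_of_nonneg_left ?_ (abs_nonneg _))
    calc (X : ℝ) ^ ε ≤ (3 * Y ^ (K + 1)) ^ ε := Real.rpow_le_rpow (Nat.cast_nonneg _) hXle hε0.le
      _ = (3 : ℝ) ^ ε * (Y ^ (K + 1)) ^ ε := Real.mul_rpow (by norm_num) (by positivity)
      _ = (3 : ℝ) ^ ε * Y ^ (c / 8) := by
          rw [← Real.rpow_natCast Y (K + 1), ← Real.rpow_mul hY0.le]
          congr 2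
          rw [hε]
          push_cast
          field_simp
  obtain ⟨M, hM⟩ : ∃ M : ℕ, M = ⌊Y ^ K⌋₊ := ⟨_, rfl⟩
  refine ⟨⋃ k ∈ Icc 1 M, ⋃ q ∈ S, Set.Icc (((q : ℝ) - w) / k) (((q : ℝ) + w) / k), ?_, ?_, ?_⟩
  · exact Finset.measurableSet_biUnion _ fun k _ => Finset.measurableSet_biUnion _ fun q _ => measurableSet_Icc
  · refine (measure_biUnion_finset_le _ _).trans ?_
    have h1 : ∀ k ∈ Icc 1 M, volume (⋃ q ∈ S, Set.Icc (((q : ℝ) - w) / k) (((q : ℝ) + w) / k)) ≤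
        ENNReal.ofReal (S.card * (2 * w) * (1 / (k : ℝ))) := by
      intro k hk
      have hk1 : 1 ≤ k := (mem_Icc.1 hk).1
      have hk0 : (0 : ℝ) < k := by exact_mod_cast hk1
      refine (measure_biUnion_finset_le _ _).trans ?_
      have h2 : ∀ q ∈ S, volume (Set.Icc (((q : ℝ) - w) / k) (((q : ℝ) + w) / k)) ≤ ENNReal.ofReal (2 * w / k) := by
        intro q _
        rw [Real.volume_Icc]
        apply le_of_eq
        congr 1
        field_simp
        ring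
      refine (Finset.sum_le_sum h2).trans ?_
      rw [sum_const, nsmul_eq_mul, ← ENNReal.ofReal_natCast, ← ENNReal.ofReal_mul (Nat.cast_nonneg _)]
      apply ENNReal.ofReal_le_ofReal
      apply le_of_eq
      ring
    refine (Finset.sum_le_sum h1).trans ?_
    rw [← ENNReal.ofReal_sum_of_nonneg (fun k _ => by positivity), ← mul_sum]
    apply ENNReal.ofReal_le_ofReal
    have h3 : ∑ k ∈ Icc 1 M, 1 / (k : ℝ) ≤ 1 + K * Real.log Y := by
      have h4 := harmonic_le_one_add_log M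
      rw [harmonic_eq_sum_Icc] at h4
      push_cast at h4
      have h5 : ∑ k ∈ Icc 1 M, 1 / (k : ℝ) = ∑ k ∈ Icc 1 M, (k : ℝ)⁻¹ := sum_congr rfl fun k _ => one_div _
      rw [h5]
      refine h4.trans ?_
      have h6 : Real.log M ≤ K * Real.log Y := by
        rcases Nat.eq_zero_or_pos M with h0 | h0
        · rw [h0, Nat.cast_zero, Real.log_zero]
          have := Real.log_nonneg hY1
          positivity
        · rw [← Real.log_pow]
          apply Real.log_le_log (by exact_mod_cast h0)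
          rw [hM]
          exact Nat.floor_le (by positivity)
      linarith
    have hlog : 0 ≤ 1 + K * Real.log Y := by
      have := Real.log_nonneg hY1
      positivity
    calc (S.card : ℝ) * (2 * w) * ∑ k ∈ Icc 1 M, 1 / (k : ℝ)
        ≤ (|C| * ((3 : ℝ) ^ ε * Y ^ (c / 8))) * (2 * w) * (1 + K * Real.log Y) := by
          apply mul_le_mul _ h3 (sum_nonneg fun k _ => by positivity) (by positivity)
          exact mul_le_mul_of_nonneg_right hScard (by positivity)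
      _ = (|C| * (3 : ℝ) ^ ε * 2 * (1 + K * Real.log Y)) * (Y ^ (c / 8) * w) := by ring
      _ ≤ Y ^ (3 * c / 8) * (Y ^ (c / 8) * w) := mul_le_mul_of_nonneg_right hYb (by positivity)
      _ = Y ^ (1 - c / 2) := by
          rw [hw, ← Real.rpow_add hY0, ← Real.rpow_add hY0]
          congr 1
          ring
  · intro y hy1 hy2 hyE k hk1 hk2 N hN
    have hk1R : (1 : ℝ) ≤ k := by exact_mod_cast hk1
    have hk0 : (0 : ℝ) < k := by linarith
    rw [← hw] at hN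
    obtain ⟨hN1, hN2⟩ := abs_le.1 hN
    have hky : Y ≤ k * y := by nlinarith
    have hNpos : 0 < N := by
      have : (0 : ℝ) < N := by linarith
      exact_mod_cast this
    refine ⟨hNpos, fun hNT => hyE ?_⟩
    rw [Set.mem_iUnion₂]
    refine ⟨k, mem_Icc.2 ⟨hk1, by rw [hM]; exact Nat.le_floor hk2⟩, ?_⟩
    rw [Set.mem_iUnion₂]
    refine ⟨N, ?_, ?_⟩
    · rw [hS, mem_filter, mem_Ioc]
      refine ⟨⟨hNpos, ?_⟩, hNT⟩
      rw [hX]
      apply Nat.le_floor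
      have hy0 : 0 ≤ y := by linarith
      have h7 : (k : ℝ) * y ≤ Y ^ K * (2 * Y) := mul_le_mul hk2 hy2 hy0 (by positivity)
      have h8 : Y ^ (K + 1) = Y ^ K * Y := pow_succ Y K
      have h9 : 1 ≤ Y ^ K := one_le_pow₀ hY1
      nlinarith
    · rw [Set.mem_Icc, div_le_iff₀ hk0, le_div_iff₀ hk0]
      constructor <;> linarith

end Pool.Agent.Q331.AllMult
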