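import Pool.Agent.Q319.DR.MultP

/-!
# Exceptional sets which depend on the scale: multiples and dilates of almost all real numbers
-/

set_option autoImplicit false

namespace Pool.Agent.Q331.DRS

open Finset MeasureTheory Filter

open Classical in
/-- Multiples of almost all real numbers; the set of the bad numbers may depend on `N`. -/
theorem mult (θ : ℝ) (hθ : 0 < θ) (hθ1 : θ < 1) (κ : ℝ) (hκ : 0 < κ) : ∃ c : ℝ, 0 < c ∧ c < 1 - θ ∧ c < κ ∧
    ∀ C : ℝ, ∃ N₀ : ℕ, ∀ N : ℕ, N₀ ≤ N → ∀ bad : ℕ → Prop,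
      (((Icc 1 (4 * N)).filter bad).card : ℝ) ≤ C * (N : ℝ) ^ (1 - κ) →
      ∃ E : Set ℝ, MeasurableSet E ∧ volume E ≤ ENNReal.ofReal ((N : ℝ) ^ (1 - θ - c)) ∧
      ∀ y : ℝ, (N : ℝ) ^ (1 - θ) ≤ y → y ≤ 2 * (N : ℝ) ^ (1 - θ) → y ∉ E →
        (((Icc 1 ⌊(N : ℝ) ^ θ⌋₊).filter (fun k : ℕ => ∃ q : ℕ, |(q : ℝ) - k * y| ≤ (N : ℝ) ^ c ∧ bad q)).card : ℝ) ≤
          (N : ℝ) ^ (θ - c) := by
  obtain ⟨c, hc, hc1, hcT, h⟩ := Pool.Agent.Q319.DR.mult_setP θ hθ hθ1 κ hκ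
  refine ⟨c, hc, hc1, hcT, fun C => ?_⟩
  obtain ⟨N₀, hN⟩ := h C
  refine ⟨N₀ + 2, fun N hNN bad hT => ?_⟩
  have hN2 : (2 : ℝ) ≤ N := by exact_mod_cast (by omega : 2 ≤ N)
  have hN1 : (1 : ℝ) ≤ N := by linarith
  have hN0 : (0 : ℝ) < N := by linarith
  obtain ⟨E, hE1, hE2, hE3⟩ := hN N (by omega) ((Icc 1 (4 * N)).filter bad) hT
  refine ⟨E, hE1, hE2, fun y hy1 hy2 hyE => le_trans ?_ (hE3 y hy1 hy2 hyE)⟩
  apply Nat.cast_le.2
  apply card_le_card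
  intro k hk
  rw [mem_filter, mem_Icc] at hk ⊢
  obtain ⟨⟨hk1, hk2⟩, q, hq1, hq2⟩ := hk
  refine ⟨⟨hk1, hk2⟩, q, ?_, hq1⟩
  rw [mem_filter, mem_Icc]
  obtain ⟨hq3, hq4⟩ := abs_le.1 hq1
  have hkN : (k : ℝ) ≤ (N : ℝ) ^ θ := (Nat.le_floor_iff (by positivity)).1 hk2
  have hk1R : (1 : ℝ) ≤ k := by exact_mod_cast hk1
  have hY0 : 0 < (N : ℝ) ^ (1 - θ) := by positivity
  have hYN : (N : ℝ) ^ θ * (N : ℝ) ^ (1 - θ) = N := by
    rw [← Real.rpow_add hN0]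
    simp
  have hYN1 : (N : ℝ) ^ (1 - θ) ≤ N := by
    calc (N : ℝ) ^ (1 - θ) ≤ (N : ℝ) ^ (1 : ℝ) := Real.rpow_le_rpow_of_exponent_le hN1 (by linarith)
      _ = N := Real.rpow_one _
  have hRY : (N : ℝ) ^ c < (N : ℝ) ^ (1 - θ) := Real.rpow_lt_rpow_of_exponent_lt (by linarith) hc1
  refine ⟨⟨?_, ?_⟩, hq2⟩
  · have h5 : 0 < (q : ℝ) := by nlinarith
    exact_mod_cast h5
  · have h5 : (k : ℝ) * y ≤ (N : ℝ) ^ θ * (2 * (N : ℝ) ^ (1 - θ)) := by
      apply mul_le_mul hkN hy2 (by linarith) (by positivity)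
    have h6 : (q : ℝ) ≤ 4 * N := by nlinarith
    exact_mod_cast h6

/-- the `α ∈ (0, D]` for which the window of radius `h` around `α N` contains a bad number -/
def Hit (bad : ℕ → Prop) (D N : ℕ) (h : ℝ) : Set ℝ :=
  {α | 0 < α ∧ α ≤ D ∧ ∃ q : ℕ, |(q : ℝ) - α * N| ≤ h ∧ bad q}

open Classical in
lemma hit_vol (bad : ℕ → Prop) (D N : ℕ) (h : ℝ) (hN : 1 ≤ N) (hh : 1 ≤ h) (hhN : h ≤ N) (W : ℝ)
    (hW : (((Icc 1 ((D + 1) * N)).filter bad).card : ℝ) ≤ W) :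
    volume (Hit bad D N h) ≤ ENNReal.ofReal ((W + 1) * (2 * h / N)) := by
  have hN0 : (0 : ℝ) < N := by exact_mod_cast hN
  set S : Finset ℕ := (Icc 1 ((D + 1) * N)).filter bad with hS
  have hsub : Hit bad D N h ⊆ ⋃ q ∈ insert 0 S, Set.Icc (((q : ℝ) - h) / N) (((q : ℝ) + h) / N) := by
    rintro α ⟨hα0, hα1, q, hq1, hq2⟩
    obtain ⟨hq3, hq4⟩ := abs_le.1 hq1
    rw [Set.mem_iUnion₂]
    refine ⟨q, ?_, ?_⟩
    · rw [mem_insert]
      rcases Nat.eq_zero_or_pos q with h0 | h0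
      · exact Or.inl h0
      · right
        rw [hS, mem_filter, mem_Icc]
        refine ⟨⟨h0, ?_⟩, hq2⟩
        have h5 : (q : ℝ) ≤ (((D + 1) * N : ℕ) : ℝ) := by
          have : α * N ≤ D * N := by gcongr
          push_cast
          linarith
        exact_mod_cast h5
    · rw [Set.mem_Icc, div_le_iff₀ hN0, le_div_iff₀ hN0]
      constructor <;> linarith
  refine (measure_mono hsub).trans ((measure_biUnion_finset_le _ _).trans ?_)
  have h2 : ∀ q ∈ insert 0 S, volume (Set.Icc (((q : ℝ) - h) / N) (((q : ℝ) + h) / N)) ≤ ENNReal.ofReal (2 * h / N) := by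
    intro q _
    rw [Real.volume_Icc]
    apply le_of_eq
    congr 1
    field_simp
    ring
  refine (Finset.sum_le_sum h2).trans ?_
  rw [sum_const, nsmul_eq_mul, ← ENNReal.ofReal_natCast, ← ENNReal.ofReal_mul (Nat.cast_nonneg _)]
  apply ENNReal.ofReal_le_ofReal
  have h3 : ((insert 0 S).card : ℝ) ≤ S.card + 1 := by exact_mod_cast card_insert_le _ _
  apply mul_le_mul_of_nonneg_right _ (by positivity)
  linarith

open Classical in
/-- Dilates of sequences of polynomial growth; the set of the bad numbers may depend on the index. -/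
theorem dil (bad : ℕ → ℕ → Prop) (κ η s : ℝ) (hκ1 : κ ≤ 1) (hη : 0 ≤ η) (hηκ : η < κ) (hs : 1 < s) (b : ℕ → ℕ)
    (hb : ∀ᶠ k : ℕ in atTop, (k : ℝ) ^ (s / (κ - η)) ≤ b k)
    (hbad : ∀ D : ℕ, ∃ C : ℝ, 0 ≤ C ∧ ∀ᶠ k : ℕ in atTop,
      (((Icc 1 ((D + 1) * b k)).filter (bad k)).card : ℝ) ≤ C * (b k : ℝ) ^ (1 - κ)) :
    ∀ᵐ α : ℝ, 0 < α → ∀ᶠ k : ℕ in atTop, ∀ q : ℕ, |(q : ℝ) - α * b k| ≤ (b k : ℝ) ^ η → ¬ bad k q := by
  have hd : 0 < κ - η := by linarith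
  have hkey : ∀ D : ℕ, ∀ᵐ α : ℝ, ∀ᶠ k : ℕ in atTop, α ∉ Hit (bad k) D (b k) ((b k : ℝ) ^ η) := by
    intro D
    obtain ⟨C, hC, hCk⟩ := hbad D
    set W : ℝ := 2 * (C + 1) with hW
    have hW0 : 0 ≤ W := by positivity
    have hev : ∀ᶠ k : ℕ in atTop, volume (Hit (bad k) D (b k) ((b k : ℝ) ^ η)) ≤
        ENNReal.ofReal (W * (1 / (k : ℝ) ^ s)) := by
      filter_upwards [hb, eventually_ge_atTop 1, hCk] with k f4 f5 f6
      have hk1 : (1 : ℝ) ≤ k := by exact_mod_cast f5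
      have hb1 : (1 : ℝ) ≤ b k := le_trans (Real.one_le_rpow hk1 (by positivity)) f4
      have hb0 : (0 : ℝ) < b k := by linarith
      refine (hit_vol (bad k) D (b k) _ (by exact_mod_cast hb1) (Real.one_le_rpow hb1 hη) ?_ _ f6).trans
        (ENNReal.ofReal_le_ofReal ?_)
      · calc (b k : ℝ) ^ η ≤ (b k : ℝ) ^ (1 : ℝ) := Real.rpow_le_rpow_of_exponent_le hb1 (by linarith)
          _ = _ := Real.rpow_one _
      · have h6 : (k : ℝ) ^ s ≤ (b k : ℝ) ^ (κ - η) := by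
          calc (k : ℝ) ^ s = ((k : ℝ) ^ (s / (κ - η))) ^ (κ - η) := by
                rw [← Real.rpow_mul (by linarith)]
                congr 1
                field_simp
            _ ≤ _ := Real.rpow_le_rpow (by positivity) f4 hd.le
        have h7 : (b k : ℝ) ^ (-(κ - η)) = 1 / (b k : ℝ) ^ (κ - η) := by
          rw [Real.rpow_neg hb0.le, one_div]
        have h8 : (1 : ℝ) ≤ (b k : ℝ) ^ (1 - κ) := Real.one_le_rpow hb1 (by linarith)
        have h9 : (b k : ℝ) ^ (1 - κ) * (2 * (b k : ℝ) ^ η / b k) = 2 * (b k : ℝ) ^ (-(κ - η)) := by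
          rw [div_eq_mul_inv, ← Real.rpow_neg_one (b k : ℝ)]
          calc (b k : ℝ) ^ (1 - κ) * (2 * (b k : ℝ) ^ η * (b k : ℝ) ^ (-1 : ℝ))
              = 2 * ((b k : ℝ) ^ (1 - κ) * ((b k : ℝ) ^ η * (b k : ℝ) ^ (-1 : ℝ))) := by ring
            _ = 2 * (b k : ℝ) ^ (-(κ - η)) := by
                rw [← Real.rpow_add hb0, ← Real.rpow_add hb0]
                congr 2
                ring
        calc (C * (b k : ℝ) ^ (1 - κ) + 1) * (2 * (b k : ℝ) ^ η / b k)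
            ≤ ((C + 1) * (b k : ℝ) ^ (1 - κ)) * (2 * (b k : ℝ) ^ η / b k) := by
              apply mul_le_mul_of_nonneg_right _ (by positivity)
              nlinarith
          _ = (C + 1) * ((b k : ℝ) ^ (1 - κ) * (2 * (b k : ℝ) ^ η / b k)) := by ring
          _ = W * (b k : ℝ) ^ (-(κ - η)) := by rw [h9, hW]; ring
          _ = W * (1 / (b k : ℝ) ^ (κ - η)) := by rw [h7]
          _ ≤ W * (1 / (k : ℝ) ^ s) := by
              apply mul_le_mul_of_nonneg_left _ hW0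
              exact one_div_le_one_div_of_le (by positivity) h6
    obtain ⟨K, hK⟩ := hev.exists_forall_of_atTop
    have hsum : ∑' j : ℕ, volume (Hit (bad (j + (K + 1))) D (b (j + (K + 1))) ((b (j + (K + 1)) : ℝ) ^ η)) ≠ ⊤ := by
      have hs : Summable (fun j : ℕ => W * (1 / ((j + (K + 1) : ℕ) : ℝ) ^ s)) := by
        apply Summable.mul_left
        exact (summable_nat_add_iff (K + 1)).2 (Real.summable_one_div_nat_rpow.2 hs)
      refine ne_top_of_le_ne_top ?_ (ENNReal.tsum_le_tsum (fun j => hK (j + (K + 1)) (by omega)))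
      exact hs.tsum_ofReal_ne_top
    have h5 := ae_eventually_notMem hsum
    filter_upwards [h5] with α hα
    obtain ⟨J, hJ⟩ := hα.exists_forall_of_atTop
    refine eventually_atTop.2 ⟨J + (K + 1), fun k hk => ?_⟩
    have h6 := hJ (k - (K + 1)) (by omega)
    rwa [Nat.sub_add_cancel (by omega)] at h6
  have hall : ∀ᵐ α : ℝ, ∀ n : ℕ, ∀ᶠ k : ℕ in atTop, α ∉ Hit (bad k) n (b k) ((b k : ℝ) ^ η) := by
    rw [ae_all_iff]
    exact hkey
  filter_upwards [hall] with α hα hα0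
  obtain ⟨n, hn⟩ := exists_nat_ge α
  filter_upwards [hα n] with k hk q hq hbq
  exact hk ⟨hα0, hn, q, hq, hbq⟩

end Pool.Agent.Q331.DRS
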