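import Mathlib

set_option autoImplicit false

/-! Windows around the multiples `k y` of almost every real VECTOR `y`: sets of integer vectors with a
power saving. -/

namespace Pool.Agent.Q331.DRV

open Finset MeasureTheory Filter

/-- the vectors `y` such that some vector of `B` has distance at most `w` from `k y` -/
def Near {r : ℕ} (B : Finset (Fin r → ℕ)) (k : ℕ) (w : ℝ) : Set (Fin r → ℝ) :=
  ⋃ d ∈ B, Set.Icc (fun i => ((d i : ℝ) - w) / k) (fun i => ((d i : ℝ) + w) / k)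

theorem near_meas {r : ℕ} (B : Finset (Fin r → ℕ)) (k : ℕ) (w : ℝ) : MeasurableSet (Near B k w) := by
  unfold Near
  exact Finset.measurableSet_biUnion _ fun d _ => measurableSet_Icc

theorem near_vol {r : ℕ} (B : Finset (Fin r → ℕ)) (k : ℕ) (w : ℝ) (hw : 0 ≤ w) :
    volume (Near B k w) ≤ ENNReal.ofReal (B.card * (2 * w / k) ^ r) := by
  unfold Near
  refine (measure_biUnion_finset_le _ _).trans ?_
  have h : ∀ d ∈ B, volume (Set.Icc (fun i : Fin r => ((d i : ℝ) - w) / k) (fun i => ((d i : ℝ) + w) / k)) =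
      ENNReal.ofReal ((2 * w / k) ^ r) := by
    intro d _
    rw [Real.volume_Icc_pi]
    have e : ∀ i : Fin r, ((d i : ℝ) + w) / k - ((d i : ℝ) - w) / k = 2 * w / k := fun i => by ring
    simp only [e]
    rw [Finset.prod_const, Finset.card_univ, Fintype.card_fin, ENNReal.ofReal_pow (by positivity)]
  rw [Finset.sum_congr rfl h, Finset.sum_const, nsmul_eq_mul, ENNReal.ofReal_mul (by positivity),
    ENNReal.ofReal_natCast]

theorem mem_near {r : ℕ} {B : Finset (Fin r → ℕ)} {k : ℕ} (hk : 1 ≤ k) {w : ℝ} {y : Fin r → ℝ} {d : Fin r → ℕ}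
    (hd : d ∈ B) (h : ∀ i, |(d i : ℝ) - k * y i| ≤ w) : y ∈ Near B k w := by
  have hk0 : (0 : ℝ) < k := by exact_mod_cast hk
  unfold Near
  rw [Set.mem_iUnion₂]
  refine ⟨d, hd, ?_⟩
  rw [Set.mem_Icc, Pi.le_def, Pi.le_def]
  constructor
  · intro i
    have := (abs_le.1 (h i)).2
    rw [div_le_iff₀ hk0]
    linarith
  · intro i
    have := (abs_le.1 (h i)).1
    rw [le_div_iff₀ hk0]
    linarith

open Classical in
/-- Let `𝔅` be a set of integer vectors with at most `C N ^ (r - δ)` elements in `[1, 4 N] ^ r`. For all real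
vectors `y` in `[N ^ (1 - ϑ), 2 N ^ (1 - ϑ)] ^ r` outside a set of measure at most `N ^ (r (1 - ϑ) - c)` and all
`k ≤ N ^ ϑ` with at most `N ^ (ϑ - c)` exceptions no vector of `𝔅` has distance at most `N ^ c` from `k y`. -/
theorem mult (r : ℕ) (ϑ : ℝ) (hϑ : 0 < ϑ) (hϑ1 : ϑ < 1) (δ : ℝ) (hδ : 0 < δ) :
    ∃ c : ℝ, 0 < c ∧ c < 1 - ϑ ∧ c ≤ δ / 3 ∧ ∀ C : ℝ, ∃ N₀ : ℕ, ∀ N : ℕ, N₀ ≤ N → ∀ bad : (Fin r → ℕ) → Prop,
      (((Fintype.piFinset fun _ : Fin r => Icc 1 (4 * N)).filter bad).card : ℝ) ≤ C * (N : ℝ) ^ ((r : ℝ) - δ) →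
      ∃ E : Set (Fin r → ℝ), MeasurableSet E ∧
        volume E ≤ ENNReal.ofReal ((N : ℝ) ^ ((r : ℝ) * (1 - ϑ) - c)) ∧
        ∀ y : Fin r → ℝ, (∀ i, (N : ℝ) ^ (1 - ϑ) ≤ y i ∧ y i ≤ 2 * (N : ℝ) ^ (1 - ϑ)) → y ∉ E →
          (((Icc 1 ⌊(N : ℝ) ^ ϑ⌋₊).filter (fun k : ℕ => ∃ d : Fin r → ℕ,
            (∀ i, |(d i : ℝ) - k * y i| ≤ (N : ℝ) ^ c) ∧ bad d)).card : ℝ) ≤ (N : ℝ) ^ (ϑ - c) := by
  obtain ⟨c, hc, hc1, hc2, hc3⟩ : ∃ c : ℝ, 0 < c ∧ (3 * r + 3) * c ≤ δ ∧ c ≤ (1 - ϑ) / 2 ∧ c ≤ ϑ / 4 := by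
    have hr : (0 : ℝ) < 3 * r + 3 := by positivity
    refine ⟨min (δ / (3 * r + 3)) (min ((1 - ϑ) / 2) (ϑ / 4)), ?_, ?_, ?_, ?_⟩
    · exact lt_min (by positivity) (lt_min (by linarith) (by linarith))
    · rw [mul_comm, ← le_div_iff₀ hr]
      exact min_le_left _ _
    · exact (min_le_right _ _).trans (min_le_left _ _)
    · exact (min_le_right _ _).trans (min_le_right _ _)
  refine ⟨c, hc, by linarith, ?_, fun C => ?_⟩
  · have : (0 : ℝ) ≤ r * c := by positivity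
    nlinarith
  have tN : Tendsto (fun N : ℕ => (N : ℝ)) atTop atTop := tendsto_natCast_atTop_atTop
  have t1 : Tendsto (fun N : ℕ => (N : ℝ) ^ c) atTop atTop := (tendsto_rpow_atTop hc).comp tN
  have t2 : Tendsto (fun N : ℕ => (N : ℝ) ^ ((1 - ϑ) / 2)) atTop atTop :=
    (tendsto_rpow_atTop (by linarith)).comp tN
  obtain ⟨N₀, hN₀⟩ := ((t1.eventually_ge_atTop (2 * |C| * 2 ^ r + 2)).and
    ((t2.eventually_ge_atTop 2).and (eventually_ge_atTop 1))).exists_forall_of_atTop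
  refine ⟨N₀, fun N hN bad hbad => ?_⟩
  obtain ⟨f1, f2, f3⟩ := hN₀ N hN
  have hN1 : (1 : ℝ) ≤ N := by exact_mod_cast f3
  have hN0 : (0 : ℝ) < N := by linarith
  set w : ℝ := (N : ℝ) ^ c with hw
  have hw1 : 1 ≤ w := Real.one_le_rpow hN1 hc.le
  have hC0 : (0 : ℝ) ≤ |C| * 2 ^ r := by positivity
  have hw2 : 2 ≤ w := by linarith
  set B := (Fintype.piFinset fun _ : Fin r => Icc 1 (4 * N)).filter bad with hB
  set K : ℕ := ⌊(N : ℝ) ^ ϑ⌋₊ with hK
  set K' : ℝ := (N : ℝ) ^ (ϑ - 2 * c) with hK'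
  have hK'0 : 0 < K' := by positivity
  set Ks : Finset ℕ := (Icc 1 K).filter (fun k => K' < k) with hKs
  set F : (Fin r → ℝ) → ENNReal := fun y => ∑ k ∈ Ks, (Near B k w).indicator (fun _ => (1 : ENNReal)) y with hF
  have hFm : Measurable F := Finset.measurable_sum _ fun k _ => measurable_const.indicator (near_meas B k w)
  set t : ℝ := (N : ℝ) ^ (ϑ - c) / 2 with ht
  have ht0 : 0 < t := by positivity
  -- the integral
  have hint : ∫⁻ y, F y ≤ ENNReal.ofReal ((N : ℝ) ^ ϑ * (|C| * (N : ℝ) ^ ((r : ℝ) - δ) * (2 * w / K') ^ r)) := by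
    rw [hF, lintegral_finsetSum _ (fun k _ => measurable_const.indicator (near_meas B k w))]
    have h1 : ∀ k ∈ Ks, ∫⁻ y, (Near B k w).indicator (fun _ => (1 : ENNReal)) y ≤
        ENNReal.ofReal (|C| * (N : ℝ) ^ ((r : ℝ) - δ) * (2 * w / K') ^ r) := by
      intro k hk
      rw [hKs, mem_filter] at hk
      rw [lintegral_indicator (near_meas B k w), setLIntegral_one]
      refine (near_vol B k w (by linarith)).trans (ENNReal.ofReal_le_ofReal ?_)
      have h2 : (B.card : ℝ) ≤ |C| * (N : ℝ) ^ ((r : ℝ) - δ) :=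
        hbad.trans (mul_le_mul_of_nonneg_right (le_abs_self C) (by positivity))
      have h3 : (2 * w / k) ^ r ≤ (2 * w / K') ^ r := by
        apply pow_le_pow_left₀ (by positivity)
        exact div_le_div_of_nonneg_left (by positivity) hK'0 hk.2.le
      exact mul_le_mul h2 h3 (by positivity) (by positivity)
    refine (Finset.sum_le_sum h1).trans ?_
    rw [Finset.sum_const, nsmul_eq_mul]
    have h4 : (Ks.card : ℝ) ≤ (N : ℝ) ^ ϑ := by
      have h5 : Ks.card ≤ K := by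
        refine (card_le_card (filter_subset _ _)).trans ?_
        rw [Nat.card_Icc]
        omega
      calc (Ks.card : ℝ) ≤ K := by exact_mod_cast h5
        _ ≤ (N : ℝ) ^ ϑ := Nat.floor_le (by positivity)
    calc (Ks.card : ENNReal) * ENNReal.ofReal (|C| * (N : ℝ) ^ ((r : ℝ) - δ) * (2 * w / K') ^ r)
        = ENNReal.ofReal (Ks.card) * ENNReal.ofReal (|C| * (N : ℝ) ^ ((r : ℝ) - δ) * (2 * w / K') ^ r) := by
          rw [ENNReal.ofReal_natCast]
      _ = ENNReal.ofReal (Ks.card * (|C| * (N : ℝ) ^ ((r : ℝ) - δ) * (2 * w / K') ^ r)) := by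
          rw [← ENNReal.ofReal_mul (by positivity)]
      _ ≤ _ := by
          apply ENNReal.ofReal_le_ofReal
          exact mul_le_mul_of_nonneg_right h4 (by positivity)
  -- the exceptional set
  refine ⟨{y | ENNReal.ofReal t ≤ F y}, measurableSet_le measurable_const hFm, ?_, ?_⟩
  · have h1 := mul_meas_ge_le_lintegral hFm (ENNReal.ofReal t) (μ := volume)
    have ht' : ENNReal.ofReal t ≠ 0 := by simpa using ht0
    have h2 : volume {y | ENNReal.ofReal t ≤ F y} ≤ (∫⁻ y, F y) / ENNReal.ofReal t := by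
      rw [ENNReal.le_div_iff_mul_le (Or.inl ht') (Or.inl ENNReal.ofReal_ne_top), mul_comm]
      exact h1
    refine h2.trans ((ENNReal.div_le_div_right hint _).trans ?_)
    rw [← ENNReal.ofReal_div_of_pos ht0]
    apply ENNReal.ofReal_le_ofReal
    rw [div_le_iff₀ ht0]
    have e1 : w / K' = (N : ℝ) ^ (3 * c - ϑ) := by
      rw [hw, hK', ← Real.rpow_sub hN0]
      congr 1
      ring
    have e2 : (2 * w / K') ^ r = 2 ^ r * (N : ℝ) ^ ((r : ℝ) * (3 * c - ϑ)) := by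
      rw [mul_div_assoc, e1, mul_pow, ← Real.rpow_natCast ((N : ℝ) ^ (3 * c - ϑ)) r, ← Real.rpow_mul hN0.le]
      congr 2
      ring
    rw [e2]
    have e3 : (N : ℝ) ^ ϑ * (|C| * (N : ℝ) ^ ((r : ℝ) - δ) * (2 ^ r * (N : ℝ) ^ ((r : ℝ) * (3 * c - ϑ)))) =
        |C| * 2 ^ r * (N : ℝ) ^ (ϑ + ((r : ℝ) - δ) + (r : ℝ) * (3 * c - ϑ)) := by
      rw [Real.rpow_add hN0, Real.rpow_add hN0]
      ring
    have e4 : (N : ℝ) ^ ((r : ℝ) * (1 - ϑ) - c) * t =
        (N : ℝ) ^ ((r : ℝ) * (1 - ϑ) - c + (ϑ - c)) / 2 := by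
      rw [ht, Real.rpow_add hN0]
      ring
    rw [e3, e4]
    have h5 : (N : ℝ) ^ (ϑ + ((r : ℝ) - δ) + (r : ℝ) * (3 * c - ϑ)) * (N : ℝ) ^ c ≤
        (N : ℝ) ^ ((r : ℝ) * (1 - ϑ) - c + (ϑ - c)) := by
      rw [← Real.rpow_add hN0]
      apply Real.rpow_le_rpow_of_exponent_le hN1
      nlinarith
    have h6 : (0 : ℝ) ≤ (N : ℝ) ^ (ϑ + ((r : ℝ) - δ) + (r : ℝ) * (3 * c - ϑ)) := by positivity
    have h7 : 2 * (|C| * 2 ^ r) ≤ (N : ℝ) ^ c := by linarith
    have h8 := mul_le_mul_of_nonneg_left h7 h6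
    nlinarith
  · intro y hy hyE
    rw [Set.mem_ofPred_eq, not_le] at hyE
    -- the number of the bad `k > K'`
    have hcount : (((Ks.filter (fun k => y ∈ Near B k w)).card : ℕ) : ℝ) ≤ t := by
      have h1 : F y = ((Ks.filter (fun k => y ∈ Near B k w)).card : ENNReal) := by
        rw [hF]
        simp only [Set.indicator_apply]
        rw [Finset.sum_ite, Finset.sum_const_zero, add_zero, Finset.sum_const, nsmul_eq_mul, mul_one]
      rw [h1] at hyE
      rw [← ENNReal.ofReal_natCast] at hyE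
      exact ((ENNReal.ofReal_lt_ofReal_iff ht0).1 hyE).le
    have hsub : (Icc 1 K).filter (fun k : ℕ => ∃ d : Fin r → ℕ,
        (∀ i, |(d i : ℝ) - k * y i| ≤ w) ∧ bad d) ⊆
        (Icc 1 ⌊K'⌋₊) ∪ (Ks.filter (fun k => y ∈ Near B k w)) := by
      intro k hk
      rw [mem_filter, mem_Icc] at hk
      obtain ⟨⟨hk1, hk2⟩, d, hd, hdb⟩ := hk
      by_cases hkK : K' < k
      · apply mem_union_right
        rw [mem_filter, hKs, mem_filter, mem_Icc]
        refine ⟨⟨⟨hk1, hk2⟩, hkK⟩, mem_near hk1 ?_ hd⟩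
        rw [hB, mem_filter, Fintype.mem_piFinset]
        refine ⟨fun i => ?_, hdb⟩
        have hk1' : (1 : ℝ) ≤ k := by exact_mod_cast hk1
        have hk2' : (k : ℝ) ≤ (N : ℝ) ^ ϑ :=
          le_trans (by exact_mod_cast hk2) (Nat.floor_le (by positivity))
        obtain ⟨hy1, hy2⟩ := hy i
        obtain ⟨hd1, hd2⟩ := abs_le.1 (hd i)
        have hsq : (N : ℝ) ^ (1 - ϑ) = (N : ℝ) ^ ((1 - ϑ) / 2) * (N : ℝ) ^ ((1 - ϑ) / 2) := by
          rw [← Real.rpow_add hN0]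
          congr 1
          ring
        have hwle : w ≤ (N : ℝ) ^ ((1 - ϑ) / 2) := Real.rpow_le_rpow_of_exponent_le hN1 hc2
        have hlow : w + 1 ≤ (N : ℝ) ^ (1 - ϑ) := by
          rw [hsq]
          nlinarith
        have hNN : (N : ℝ) ^ ϑ * (N : ℝ) ^ (1 - ϑ) = N := by
          rw [← Real.rpow_add hN0]
          simp
        have hwN : w ≤ N := by
          calc w ≤ (N : ℝ) ^ (1 : ℝ) := Real.rpow_le_rpow_of_exponent_le hN1 (by linarith)
            _ = N := Real.rpow_one _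
        have hy0 : 0 ≤ y i := le_trans (by positivity) hy1
        have h5 : (1 : ℝ) ≤ d i := by
          have : (N : ℝ) ^ (1 - ϑ) ≤ k * y i := by nlinarith
          linarith
        have h6 : (d i : ℝ) ≤ 4 * N := by
          have h7 : (k : ℝ) * y i ≤ (N : ℝ) ^ ϑ * (2 * (N : ℝ) ^ (1 - ϑ)) :=
            mul_le_mul hk2' hy2 hy0 (by positivity)
          have h8 : (N : ℝ) ^ ϑ * (2 * (N : ℝ) ^ (1 - ϑ)) = 2 * N := by linear_combination 2 * hNN
          linarith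
        rw [mem_Icc]
        exact ⟨by exact_mod_cast h5, by exact_mod_cast h6⟩
      · apply mem_union_left
        rw [not_lt] at hkK
        rw [mem_Icc]
        exact ⟨hk1, Nat.le_floor hkK⟩
    have h1 := (card_le_card hsub).trans (card_union_le _ _)
    have h2 : (((Icc 1 ⌊K'⌋₊).card : ℕ) : ℝ) ≤ K' := by
      rw [Nat.card_Icc]
      simpa using Nat.floor_le hK'0.le
    have h3 : K' ≤ t := by
      rw [hK', ht, le_div_iff₀ (by norm_num : (0 : ℝ) < 2)]
      calc (N : ℝ) ^ (ϑ - 2 * c) * 2 ≤ (N : ℝ) ^ (ϑ - 2 * c) * w := by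
            apply mul_le_mul_of_nonneg_left hw2 (by positivity)
        _ = (N : ℝ) ^ (ϑ - c) := by
            rw [hw, ← Real.rpow_add hN0]
            congr 1
            ring
    calc (((Icc 1 K).filter (fun k : ℕ => ∃ d : Fin r → ℕ,
        (∀ i, |(d i : ℝ) - k * y i| ≤ w) ∧ bad d)).card : ℝ) ≤
        ((Icc 1 ⌊K'⌋₊).card : ℝ) + ((Ks.filter (fun k => y ∈ Near B k w)).card : ℝ) := by exact_mod_cast h1
      _ ≤ t + t := by linarith
      _ = (N : ℝ) ^ (ϑ - c) := by rw [ht]; ring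

end Pool.Agent.Q331.DRV
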