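import Mathlib

/-!
# Counting a set of integers from its dyadic pieces
-/

set_option autoImplicit false

namespace Pool.Agent.Q331.Dyad

open Finset

open Classical in
theorem cum (P : Set ℕ) (s : ℝ) (hs : 0 < s) (C : ℝ) (J₀ : ℕ)
    (h : ∀ j : ℕ, J₀ ≤ j → (((Ioc (2 ^ j) (2 * 2 ^ j)).filter (fun t => t ∈ P)).card : ℝ) ≤ C * ((2 : ℝ) ^ j) ^ s) :
    ∃ C' : ℝ, ∀ X : ℕ, 1 ≤ X → (((Ioc 0 X).filter (fun t => t ∈ P)).card : ℝ) ≤ C' * (X : ℝ) ^ s := by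
  have h2s : 1 < (2 : ℝ) ^ s := Real.one_lt_rpow (by norm_num) hs
  have hC : 0 ≤ C := by
    have h1 := h J₀ le_rfl
    have h2 : 0 < ((2 : ℝ) ^ J₀) ^ s := by positivity
    by_contra hlt
    rw [not_le] at hlt
    have h3 : C * ((2 : ℝ) ^ J₀) ^ s < 0 := mul_neg_of_neg_of_pos hlt h2
    have h4 : (0 : ℝ) ≤ (((Ioc (2 ^ J₀) (2 * 2 ^ J₀)).filter (fun t => t ∈ P)).card : ℝ) := Nat.cast_nonneg _
    linarith
  obtain ⟨B, hB⟩ : ∃ B : ℝ, B = C / ((2 : ℝ) ^ s - 1) := ⟨_, rfl⟩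
  have hB0 : 0 ≤ B := by rw [hB]; exact div_nonneg hC (by linarith)
  have hBC : B * ((2 : ℝ) ^ s - 1) = C := by
    rw [hB]
    exact div_mul_cancel₀ _ (by linarith)
  have key : ∀ i : ℕ, (((Ioc 0 (2 ^ (J₀ + i))).filter (fun t => t ∈ P)).card : ℝ) ≤
      2 ^ J₀ + B * ((2 : ℝ) ^ (J₀ + i)) ^ s := by
    intro i
    induction i with
    | zero =>
      have h1 : ((Ioc 0 (2 ^ (J₀ + 0))).filter (fun t => t ∈ P)).card ≤ 2 ^ J₀ := by
        refine (card_filter_le _ _).trans ?_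
        rw [Nat.card_Ioc, Nat.add_zero, Nat.sub_zero]
      have h2 : (((Ioc 0 (2 ^ (J₀ + 0))).filter (fun t => t ∈ P)).card : ℝ) ≤ 2 ^ J₀ := by exact_mod_cast h1
      have h3 : 0 ≤ B * ((2 : ℝ) ^ (J₀ + 0)) ^ s := by positivity
      linarith
    | succ i ih =>
      have h1 := h (J₀ + i) (by omega)
      have hsub : (Ioc 0 (2 ^ (J₀ + (i + 1)))).filter (fun t => t ∈ P) ⊆
          (Ioc 0 (2 ^ (J₀ + i))).filter (fun t => t ∈ P) ∪
            (Ioc (2 ^ (J₀ + i)) (2 * 2 ^ (J₀ + i))).filter (fun t => t ∈ P) := by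
        intro t ht
        rw [mem_filter, mem_Ioc] at ht
        obtain ⟨⟨h3, h4⟩, h5⟩ := ht
        rw [← add_assoc, pow_succ, mul_comm] at h4
        rcases le_or_gt t (2 ^ (J₀ + i)) with h6 | h6
        · exact mem_union_left _ (mem_filter.2 ⟨mem_Ioc.2 ⟨h3, h6⟩, h5⟩)
        · exact mem_union_right _ (mem_filter.2 ⟨mem_Ioc.2 ⟨h6, h4⟩, h5⟩)
      have h7 : (((Ioc 0 (2 ^ (J₀ + (i + 1)))).filter (fun t => t ∈ P)).card : ℝ) ≤
          (((Ioc 0 (2 ^ (J₀ + i))).filter (fun t => t ∈ P)).card : ℝ) +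
            (((Ioc (2 ^ (J₀ + i)) (2 * 2 ^ (J₀ + i))).filter (fun t => t ∈ P)).card : ℝ) := by
        exact_mod_cast (card_le_card hsub).trans (card_union_le _ _)
      have h8 : ((2 : ℝ) ^ (J₀ + (i + 1))) ^ s = (2 : ℝ) ^ s * ((2 : ℝ) ^ (J₀ + i)) ^ s := by
        rw [← add_assoc, pow_succ, Real.mul_rpow (by positivity) (by norm_num), mul_comm]
      rw [h8]
      have h9 : B * ((2 : ℝ) ^ s * ((2 : ℝ) ^ (J₀ + i)) ^ s) =
          B * ((2 : ℝ) ^ (J₀ + i)) ^ s + C * ((2 : ℝ) ^ (J₀ + i)) ^ s := by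
        rw [← hBC]
        ring
      linarith
  refine ⟨2 ^ J₀ + B * (2 : ℝ) ^ s, fun X hX => ?_⟩
  have hX1 : (1 : ℝ) ≤ X := by exact_mod_cast hX
  have hXs : 1 ≤ (X : ℝ) ^ s := Real.one_le_rpow hX1 hs.le
  rcases le_or_gt X (2 ^ J₀) with h1 | h1
  · have h2 : ((Ioc 0 X).filter (fun t => t ∈ P)).card ≤ 2 ^ J₀ := by
      refine (card_filter_le _ _).trans ?_
      rw [Nat.card_Ioc, Nat.sub_zero]
      exact h1
    have h3 : (((Ioc 0 X).filter (fun t => t ∈ P)).card : ℝ) ≤ 2 ^ J₀ := by exact_mod_cast h2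
    have h4 : (0 : ℝ) ≤ B * (2 : ℝ) ^ s := by positivity
    have h5 : (0 : ℝ) < 2 ^ J₀ := by positivity
    nlinarith
  · obtain ⟨j, hj1, hj2⟩ : ∃ j : ℕ, 2 ^ j < X ∧ X ≤ 2 ^ (j + 1) := by
      refine ⟨Nat.clog 2 X - 1, ?_, ?_⟩
      · apply Nat.pow_pred_clog_lt_self (by norm_num)
        have : 1 ≤ 2 ^ J₀ := Nat.one_le_two_pow
        omega
      · have h3 : 1 ≤ Nat.clog 2 X := by
          rw [Nat.one_le_iff_ne_zero]
          intro h0
          have h4 := Nat.le_pow_clog (show 1 < 2 by norm_num) X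
          rw [h0, pow_zero] at h4
          have : 1 ≤ 2 ^ J₀ := Nat.one_le_two_pow
          omega
        rw [Nat.sub_add_cancel h3]
        exact Nat.le_pow_clog (by norm_num) X
    have hJj : J₀ ≤ j := by
      by_contra hlt
      rw [not_le] at hlt
      have : 2 ^ (j + 1) ≤ 2 ^ J₀ := Nat.pow_le_pow_right (by norm_num) (by omega)
      omega
    obtain ⟨i, hi⟩ : ∃ i, j + 1 = J₀ + i := ⟨j + 1 - J₀, by omega⟩
    have h3 := key i
    rw [← hi] at h3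
    have h4 : (((Ioc 0 X).filter (fun t => t ∈ P)).card : ℝ) ≤
        (((Ioc 0 (2 ^ (j + 1))).filter (fun t => t ∈ P)).card : ℝ) := by
      apply Nat.cast_le.2
      apply card_le_card
      apply filter_subset_filter
      exact Ioc_subset_Ioc_right hj2
    have h5 : ((2 : ℝ) ^ (j + 1)) ^ s ≤ (2 : ℝ) ^ s * (X : ℝ) ^ s := by
      rw [pow_succ, Real.mul_rpow (by positivity) (by norm_num), mul_comm]
      apply mul_le_mul_of_nonneg_left _ (by positivity)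
      apply Real.rpow_le_rpow (by positivity) _ hs.le
      exact_mod_cast hj1.le
    have h6 : (0 : ℝ) < 2 ^ J₀ := by positivity
    have h7 : B * ((2 : ℝ) ^ (j + 1)) ^ s ≤ B * ((2 : ℝ) ^ s * (X : ℝ) ^ s) := mul_le_mul_of_nonneg_left h5 hB0
    nlinarith

end Pool.Agent.Q331.Dyad
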